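import Pool.Agent.H95.DC.Cor
import Pool.Agent.H89.L.Z125_UN_MotUni

/-!
# MP_fc2ced_ag: Schur-finiteness of the motives of coverings of affine spaces

`D : Motives k C` are data of motives `M X`, of motives with compact support `Mc X` and of the object
`L = ℚ(1)[2]` in a `ℚ`-linear symmetric monoidal triangulated category `C` (in the application: the
category `DM_gm(k)_ℚ`). `FT True X` means that `X` is separated and of finite type over `k`.

For polynomials `f_1, …, f_m` in the variables `z_s`, `s ∈ σ`: `zeroS f` is the closed subscheme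
`f_1 = … = f_m = 0` of the affine space; `covS S f` is the covering
`∏_{c ∈ S} (w - c) = ∑ x_l f_l(z)` of the affine space with the coordinates `z_s` and `x_1, …, x_m`, for
a finite subset `S` of `k`; `asS p f` is the Artin–Schreier covering `w^p - w = ∑ x_l f_l(z)` of the same
affine space. For a trilinear form `t(x, y, z) = ∑ t_ijl x_i y_j z_l` the polynomials `bq t` are the `c`
bilinear forms `∑ t_ijl x_i y_j`, so that `covS {0, 1} (bq t)` is the double covering
`w^2 - w = t(x, y, z)` and `asS p (bq t)` is the covering `w^p - w = t(x, y, z)`.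
-/

set_option autoImplicit false

open CategoryTheory MonoidalCategory AlgebraicGeometry MvPolynomial Pool.Agent.TH137.DG
  Pool.Agent.Y116.UV Pool.Agent.Z125.UN Pool.Agent.H95.DC

namespace Pool.Agent.Results.MP_fc2ced_ag.CoveringsOfAffineSpaces

universe v u

variable {k : Type} [Field k] {C : Type u} [Category.{v} C] [MonoidalCategory C]
  [SymmetricCategory C] [Preadditive C] [Linear ℚ C] [Limits.HasZeroObject C] [HasShift C ℤ]
  [∀ n : ℤ, (shiftFunctor C n).Additive] [Pretriangulated C]

/-- The standard properties of motives which are used. Besides those of `IsMotives` (Schur-finite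
objects have the two-out-of-three property in distinguished triangles and are stable under shifts and
Tate twists; localisation triangles; Jouanolou's affine bundles; products with `𝔾_m`; duality for smooth
schemes; the motives of smooth schemes of dimension at most one are Schur-finite) these are: `Mc Z` is
a direct summand of `Mc X` for an open and closed subscheme `Z` of `X`; and homotopy invariance in the
form: if `q : V ⟶ S` is flat and all its fibres are affine spaces of dimension `r`, then `Mc V` is
isomorphic to `Mc S` twisted by `(r)[2r]`. -/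
structure IsFlatMotives (D : Motives k C) : Prop extends IsMotives D where
  clopen : ∀ {Z X : Sch k} (i : Z ⟶ X), FT True X → IsClosedImmersion i.left →
    IsOpenImmersion i.left → ∃ (s : D.Mc Z ⟶ D.Mc X) (r : D.Mc X ⟶ D.Mc Z), s ≫ r = 𝟙 _
  fibres : ∀ {V S : Sch k} (q : V ⟶ S) (r : ℕ), FT True V → FT True S → Flat q.left →
    AffineFibres q.left r → Nonempty (D.Mc V ≅ tw D.L r (D.Mc S))

/-- The closure properties of the class of schemes whose motive with compact support is
Schur-finite. -/
theorem fla_sf {D : Motives k C} (hD : IsFlatMotives D) :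
    Fla True fun X : Sch k => IsSchurFinite (D.Mc X) where
  toBnd := bnd_sf hD.toIsMotives
  clopen i hX hc ho h := by
    obtain ⟨s, r, hs⟩ := hD.clopen i hX hc ho
    exact sf_retract s r hs h
  fibres q r hV hS hq hr := by
    rw [sf_iso (hD.fibres q r hV hS hq hr), sf_tw hD.toIsMotives]

/-- The motives of all smooth schemes of dimension at most `d` are Schur-finite. -/
def SmoothDim (D : Motives k C) (d : ℕ) : Prop :=
  ∀ X : Sch k, FT True X → Smooth X.hom → topologicalKrullDim X.left ≤ d → IsSchurFinite (D.M X)

/-- The motives of all smooth schemes are Schur-finite. -/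
def AllSmooth (D : Motives k C) : Prop :=
  ∀ X : Sch k, FT True X → Smooth X.hom → IsSchurFinite (D.M X)

/-- **Theorem.** Let `k` be a perfect field.
(1) Let `S ⊆ k` be finite with at least two elements. For all polynomials `f_1, …, f_m` in `n`
variables, the covering `∏_{c ∈ S} (w - c) = ∑ x_l f_l(z)` of the affine space of dimension `n + m` is
smooth over `k`, finite and free of rank `|S|` over the affine space, and its motive is Schur-finite if
and only if the motive with compact support of the scheme `f_1 = … = f_m = 0` is Schur-finite.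
(2) For all `d`, the motives of all smooth schemes of dimension at most `d` are Schur-finite if and only
if the motives of the coverings `∏_{c ∈ S} (w - c) = t(x, y, z)` are Schur-finite, for the trilinear forms
`t` with at most `d + 2` variables `z`; all motives of smooth schemes are Schur-finite if and only if
this holds for all trilinear forms `t`; and if `k` is a prime field, the trilinear forms with
coefficients `0` and `1` are sufficient.
(3) The motive of the covering `∏_{c ∈ S} (w - c) = ∑ x_l f_l(z)` is Schur-finite if `n ≤ 2` or if the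
scheme `f_1 = … = f_m = 0` has dimension at most one; the motive of `∏_{c ∈ S} (w - c) = t(x, y, z)` is
Schur-finite if there are at most three variables `z`.
(4) If `k` has the characteristic `p > 0`, the statements of (1), (2) and (3) hold for the
Artin–Schreier coverings `w^p - w = ∑ x_l f_l(z)`, which are étale over the affine space. -/
theorem result [PerfectField k] (D : Motives k C) (hD : IsFlatMotives D) :
    (∀ S : Finset k, 2 ≤ S.card →
      (∀ (n m : ℕ) (f : Fin m → MvPolynomial (Fin n) k),
        (IsSchurFinite (D.M (covS S f)) ↔ IsSchurFinite (D.Mc (zeroS f))) ∧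
        (n ≤ 2 ∨ topologicalKrullDim (zeroS f).left ≤ 1 → IsSchurFinite (D.M (covS S f))) ∧
        Smooth (covS S f).hom ∧
        Module.Finite (MvPolynomial (Fin m) (MvPolynomial (Fin n) k)) (Cov S f) ∧
        Module.Free (MvPolynomial (Fin m) (MvPolynomial (Fin n) k)) (Cov S f) ∧
        Module.finrank (MvPolynomial (Fin m) (MvPolynomial (Fin n) k)) (Cov S f) = S.card) ∧
      (∀ d : ℕ, SmoothDim D d ↔ ∀ (a b c : ℕ) (t : Fin a → Fin b → Fin c → k), c ≤ d + 2 →
        IsSchurFinite (D.M (covS S (bq t)))) ∧
      (AllSmooth D ↔ ∀ (a b c : ℕ) (t : Fin a → Fin b → Fin c → k),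
        IsSchurFinite (D.M (covS S (bq t)))) ∧
      (∀ (a b c : ℕ) (t : Fin a → Fin b → Fin c → k), c ≤ 3 →
        IsSchurFinite (D.M (covS S (bq t)))) ∧
      (Pool.Agent.Q193.LT.Frac k → (AllSmooth D ↔
        ∀ (a b c : ℕ) (E : Fin c → Finset (Fin a × Fin b)),
          IsSchurFinite (D.M (covS S (bf k E)))))) ∧
    ∀ (p : ℕ) [Fact p.Prime] [CharP k p],
      (∀ (n m : ℕ) (f : Fin m → MvPolynomial (Fin n) k),
        (IsSchurFinite (D.M (asS p f)) ↔ IsSchurFinite (D.Mc (zeroS f))) ∧
        (n ≤ 2 ∨ topologicalKrullDim (zeroS f).left ≤ 1 → IsSchurFinite (D.M (asS p f))) ∧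
        Smooth (asS p f).hom ∧
        Algebra.Etale (MvPolynomial (Fin m) (MvPolynomial (Fin n) k)) (ASRing p f) ∧
        Module.Finite (MvPolynomial (Fin m) (MvPolynomial (Fin n) k)) (ASRing p f) ∧
        Module.Free (MvPolynomial (Fin m) (MvPolynomial (Fin n) k)) (ASRing p f) ∧
        Module.finrank (MvPolynomial (Fin m) (MvPolynomial (Fin n) k)) (ASRing p f) = p) ∧
      (∀ d : ℕ, SmoothDim D d ↔ ∀ (a b c : ℕ) (t : Fin a → Fin b → Fin c → k), c ≤ d + 2 →
        IsSchurFinite (D.M (asS p (bq t)))) ∧
      (AllSmooth D ↔ ∀ (a b c : ℕ) (t : Fin a → Fin b → Fin c → k),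
        IsSchurFinite (D.M (asS p (bq t)))) ∧
      (∀ (a b c : ℕ) (t : Fin a → Fin b → Fin c → k), c ≤ 3 →
        IsSchurFinite (D.M (asS p (bq t)))) ∧
      (Pool.Agent.Q193.LT.Frac k → (AllSmooth D ↔
        ∀ (a b c : ℕ) (E : Fin c → Finset (Fin a × Fin b)),
          IsSchurFinite (D.M (asS p (bf k E))))) := by
  have hP := covP_of_fla (fla_sf hD)
  -- smooth schemes
  have dd : ∀ {X : Sch k}, FT True X → Smooth X.hom →
      (IsSchurFinite (D.M X) ↔ IsSchurFinite (D.Mc X)) := fun {X} hX hs => hD.duality X hX hs
  have sd : ∀ d : ℕ, SmoothDim D d ↔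
      ∀ X : Sch k, FT True X → topologicalKrullDim X.left ≤ d → IsSchurFinite (D.Mc X) := by
    intro d
    constructor
    · intro h
      exact dim_smooth hP.toBnd d fun X hX hs hd => (dd hX hs).mp (h X hX hs hd)
    · intro h X hX hs hd
      exact (dd hX hs).mpr (h X hX hd)
  have sa : AllSmooth D ↔ ∀ X : Sch k, FT True X → IsSchurFinite (D.Mc X) := by
    constructor
    · intro h
      rw [Pool.Agent.Q193.LT.all_iff hP.toBnd]
      intro a b c T
      exact (dd (ft_aff True) (smooth_hypS T)).mp (h _ (ft_aff True) (smooth_hypS T))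
    · intro h X hX hs
      exact (dd hX hs).mpr (h X hX)
  have c1 : SmoothDim D 1 := fun X hX hs hd => hD.curves X hX hs (by exact_mod_cast hd)
  have c1' := (sd 1).mp c1
  have z1 : ∀ (n m : ℕ) (f : Fin m → MvPolynomial (Fin n) k),
      (n ≤ 2 ∨ topologicalKrullDim (zeroS f).left ≤ 1) → IsSchurFinite (D.Mc (zeroS f)) := by
    intro n m f h
    rcases h with h | h
    · exact zeroS_dim hP c1' h f
    · exact c1' _ (ft_aff True) (by exact_mod_cast h)
  refine ⟨fun S hS => ?_, fun p _ _ => ?_⟩
  · have hne : S.Nonempty := Finset.card_pos.mp (by omega)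
    have key : ∀ {σ : Type} [Fintype σ] {m : ℕ} (f : Fin m → MvPolynomial σ k),
        IsSchurFinite (D.M (covS S f)) ↔ IsSchurFinite (D.Mc (covS S f)) :=
      fun f => dd (ft_aff True) (smooth_covS S f)
    have h2 : ∀ d : ℕ, SmoothDim D d ↔ ∀ (a b c : ℕ) (t : Fin a → Fin b → Fin c → k), c ≤ d + 2 →
        IsSchurFinite (D.M (covS S (bq t))) := by
      intro d
      simp_rw [key]
      rw [sd, dim_cov hP S hS d]
    refine ⟨fun n m f => ⟨?_, fun h => ?_, smooth_covS S f, (cov_free f S hne).1,
      (cov_free f S hne).2, cov_rank f S hne⟩, h2, ?_, (h2 1).mp c1, fun hk => ?_⟩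
    · rw [key, covS_iff hP S (unitDiff_field S) hS f]
    · rw [key, covS_iff hP S (unitDiff_field S) hS f]
      exact z1 n m f h
    · simp_rw [key]
      rw [sa, all_cov hP S hS]
    · simp_rw [key]
      rw [sa, frac_cov hP hk S hS]
  · have hp : p.Prime := Fact.out
    have hs : 2 ≤ (Fp k p).card := by rw [card_Fp]; exact hp.two_le
    have key : ∀ {σ : Type} [Fintype σ] {m : ℕ} (f : Fin m → MvPolynomial σ k),
        IsSchurFinite (D.M (asS p f)) ↔ IsSchurFinite (D.Mc (zeroS f)) := by
      intro σ _ m f
      have h1 : Algebra.FiniteType k (ASRing p f) :=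
        Algebra.FiniteType.equiv inferInstance (asE k p f)
      have h2 : FT True (asS p f) := ft_aff True
      rw [dd h2 (as_smooth p f), asS_iff hP p hs f]
    have h2 : ∀ d : ℕ, SmoothDim D d ↔ ∀ (a b c : ℕ) (t : Fin a → Fin b → Fin c → k), c ≤ d + 2 →
        IsSchurFinite (D.M (asS p (bq t))) := by
      intro d
      simp_rw [key, ← asS_iff hP p hs]
      rw [sd, dim_as hP p hs d]
    refine ⟨fun n m f => ⟨key f, fun h => (key f).mpr (z1 n m f h), as_smooth p f,
      as_etale (k := k) p f, (as_free p f).1, (as_free p f).2, as_rank p f⟩, h2, ?_, (h2 1).mp c1,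
      fun hk => ?_⟩
    · simp_rw [key, ← covS_iff hP (Fp k p) (unitDiff_field _) hs]
      rw [sa, all_cov hP (Fp k p) hs]
    · simp_rw [key, ← covS_iff hP (Fp k p) (unitDiff_field _) hs]
      rw [sa, frac_cov hP hk (Fp k p) hs]

end Pool.Agent.Results.MP_fc2ced_ag.CoveringsOfAffineSpaces
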