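import Pool.Agent.H89.L.Z125_UN_MotUni
import Pool.Agent.H57.GD.Main

/-!
# MP_fc2ced_ag: Schur-finiteness of motives and graph hypersurfaces

For a finite simple graph `G` with the set of edges `E` let `kir G = ∑_T ∏_{e ∈ T} x_e` be its Kirchhoff
polynomial; the sum is over the spanning trees `T` of `G`. Let `hypS k G` be the graph hypersurface
`kir G = 0` in the affine space `A^E` over the field `k`, and let `graphS k G` be its complement in `A^E`.
More generally, the weights of some of the edges of `G` can be prescribed elements of `k`; this is given by
a function `w : E → Option k`, and the other edges have variable weights. Then `hypW G w` and `graphW G w`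
are the hypersurface and its complement in the affine space of the weights.

**Theorem.** Let `k` be a perfect field. The following are equivalent.
1. The motives of all smooth separated schemes of finite type over `k` are Schur-finite (Q1 for `k`).
2. The motives of the complements `graphW G w` of all graph hypersurfaces with weights are Schur-finite.
3. This is true for the graphs `G` all of whose vertices have degree at most three (`MaxThree G`).
4. The motives with compact support of all graph hypersurfaces `hypW G w` with weights are Schur-finite.
5. This is true for the graphs `G` all of whose vertices have degree at most three.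
If `k` is `ℚ` or a finite prime field (`Frac k`: all elements of `k` are quotients of integers), then the
graph hypersurfaces without prescribed weights suffice: Q1 for `k` is equivalent to the Schur-finiteness
of the motives of the complements `graphS k G` of the graph hypersurfaces of all finite graphs; to its case
for the graphs of maximal degree three; and to the Schur-finiteness of the motives with compact support of
the graph hypersurfaces `hypS k G` of all finite graphs, or of the graphs of maximal degree three.

`D` are the motives `M X` and the motives with compact support `Mc X` of the schemes over `k`, in the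
category `C` of geometric motives with rational coefficients; `IsMotives D` lists the standard properties
which are used.

Proof. (3 ⟹ 2) For an edge `e` of a graph `H` the Kirchhoff polynomial is `A + x_e B` with the Kirchhoff
polynomials `A` and `B` of the graphs with `e` deleted and contracted, and it is `(x + x') A + x x' B` for
the graph in which `e` is subdivided. From the loci `A ≠ 0`, `A + x B ≠ 0`, `(x + x') A + x x' B ≠ 0` one
gets the locus `B ≠ 0` by closed-open decompositions and division by `𝔾_m` (`GD/Contr.lean`). Every graph is
obtained from graphs of maximal degree three by successive contraction of edges between the two parts of a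
vertex of large degree (`GD/Split.lean`, `GD/Deg.lean`, `GD/Fin.lean`).
(2 ⟹ 1) By the matrix-tree theorem (`GH/Tree.lean`, `GH/Kir.lean`), if one vertex is joined to all others,
the complement of the graph hypersurface is the scheme of the invertible symmetric matrices with
prescribed elements outside of the diagonal and with a free diagonal (`GH/Graph.lean`). If the places of
a row `i` whose elements are not prescribed zeros belong to columns between which all elements are free,
then the part where the diagonal element of the row `i` is invertible is the product of an affine space
and the same scheme with the row and the column `i` zero outside of the diagonal; so one can put a zero on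
the diagonal (`GH/Sym.lean`). In this way one gets the invertible matrices `(0, c; cᵀ, b)` with free `b`,
and `c` is an invertible matrix with prescribed elements (`GH/Ind.lean`). These schemes are universal
(`ZP/KConf.lean`, `ZP/Conf.lean`).
-/

set_option autoImplicit false

open CategoryTheory MonoidalCategory AlgebraicGeometry Pool.Agent.TH137.DG Pool.Agent.Y116.UV
  Pool.Agent.Z125.UN Pool.Agent.Q193.LT Pool.Agent.H57.GH Pool.Agent.H57.GD

namespace Pool.Agent.Results.MP_fc2ced_ag.GraphHypersurfaces

universe v u

variable {k : Type} [Field k] {C : Type u} [Category.{v} C] [MonoidalCategory C]
  [SymmetricCategory C] [Preadditive C] [Linear ℚ C] [Limits.HasZeroObject C] [HasShift C ℤ]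
  [∀ n : ℤ, (shiftFunctor C n).Additive] [Pretriangulated C]

/-- **Schur-finiteness of motives and graph hypersurfaces.** Over every perfect field `k`, Q1 for `k`,
Schur-finiteness of the motives of the complements of all graph hypersurfaces with weights, its case for
the graphs of maximal degree three, and Schur-finiteness of the motives with compact support of all graph
hypersurfaces with weights, and its case for the graphs of maximal degree three, are equivalent. If `k` is
the field of rational numbers or a finite prime field, then the graph hypersurfaces without prescribed
weights suffice. -/
theorem result [PerfectField k] (D : Motives k C) (hD : IsMotives D) :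
    [∀ X : Sch k, FT True X → Smooth X.hom → IsSchurFinite (D.M X),
      ∀ (V : Type) [Finite V] (G : SimpleGraph V) (w : G.edgeSet → Option k),
        IsSchurFinite (D.M (graphW G w)),
      ∀ (V : Type) [Finite V] (G : SimpleGraph V) (w : G.edgeSet → Option k), MaxThree G →
        IsSchurFinite (D.M (graphW G w)),
      ∀ (V : Type) [Finite V] (G : SimpleGraph V) (w : G.edgeSet → Option k),
        IsSchurFinite (D.Mc (hypW G w)),
      ∀ (V : Type) [Finite V] (G : SimpleGraph V) (w : G.edgeSet → Option k), MaxThree G →
        IsSchurFinite (D.Mc (hypW G w))].TFAE ∧
    (Frac k →
      [∀ X : Sch k, FT True X → Smooth X.hom → IsSchurFinite (D.M X),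
        ∀ (V : Type) [Finite V] (G : SimpleGraph V), IsSchurFinite (D.M (graphS k G)),
        ∀ (V : Type) [Finite V] (G : SimpleGraph V), MaxThree G → IsSchurFinite (D.M (graphS k G)),
        ∀ (V : Type) [Finite V] (G : SimpleGraph V), IsSchurFinite (D.Mc (hypS k G)),
        ∀ (V : Type) [Finite V] (G : SimpleGraph V), MaxThree G →
          IsSchurFinite (D.Mc (hypS k G))].TFAE) := by
  have hB := bnd_sf hD
  have hsm : ∀ {A : Type} [CommRing A] [Algebra k A], Algebra.Smooth k A →
      Smooth (aff k A).hom := by
    intro A _ _ hA
    change Smooth (Spec.map (CommRingCat.ofHom (algebraMap k A)))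
    rw [HasRingHomProperty.Spec_iff (P := @Smooth)]
    exact RingHom.smooth_algebraMap.mpr hA
  have hall : (∀ X : Sch k, FT True X → IsSchurFinite (D.Mc X)) →
      ∀ X : Sch k, FT True X → Smooth X.hom → IsSchurFinite (D.M X) :=
    fun h X hX hs => (hD.duality X hX hs).mpr (h X hX)
  have hdW : ∀ (V : Type) [Finite V] (G : SimpleGraph V) (w : G.edgeSet → Option k),
      IsSchurFinite (D.M (graphW G w)) ↔ IsSchurFinite (D.Mc (graphW G w)) := fun V _ G w =>
    hD.duality _ (ft_graphW G w True) (hsm (smooth_graphW G w))
  have hdS : ∀ (V : Type) [Finite V] (G : SimpleGraph V),
      IsSchurFinite (D.M (graphS k G)) ↔ IsSchurFinite (D.Mc (graphS k G)) := fun V _ G =>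
    hD.duality _ (ft_graphS k G True) (hsm (smooth_graphS k G))
  have key : (∀ (V : Type) [Finite V] (G : SimpleGraph V) (w : G.edgeSet → Option k),
      MaxThree G → IsSchurFinite (D.M (graphW G w))) →
      ∀ X : Sch k, FT True X → IsSchurFinite (D.Mc X) := fun h X hX =>
    universal_W hB (fun V _ G w hG => (hdW V G w).mp (h V G w hG)) X hX
  have key1 : (∀ X : Sch k, FT True X → Smooth X.hom → IsSchurFinite (D.M X)) →
      ∀ X : Sch k, FT True X → IsSchurFinite (D.Mc X) := fun h =>
    key fun V _ G w _ => h _ (ft_graphW G w True) (hsm (smooth_graphW G w))
  refine ⟨?_, fun hk => ?_⟩
  · tfae_have 1 → 2 := fun h V _ G w => h _ (ft_graphW G w True) (hsm (smooth_graphW G w))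
    tfae_have 2 → 3 := fun h V _ G w _ => h V G w
    tfae_have 3 → 1 := fun h => hall (key h)
    tfae_have 1 → 4 := fun h V _ G w => key1 h _ (ft_aff True)
    tfae_have 4 → 5 := fun h V _ G w _ => h V G w
    tfae_have 5 → 3 := fun h V _ G w hG => (hdW V G w).mpr (graphW_of_hyp hB G w (h V G w hG))
    tfae_finish
  · tfae_have 1 → 2 := fun h V _ G => h _ (ft_graphS k G True) (hsm (smooth_graphS k G))
    tfae_have 2 → 3 := fun h V _ G _ => h V G
    tfae_have 3 → 1 := fun h => hall fun X hX =>
      universal_S hk hB (fun V _ G hG => (hdS V G).mp (h V G hG)) X hX
    tfae_have 1 → 4 := fun h V _ G => key1 h _ (ft_aff True)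
    tfae_have 4 → 5 := fun h V _ G _ => h V G
    tfae_have 5 → 3 := fun h V _ G hG => (hdS V G).mpr (graphS_of_hyp hB G (h V G hG))
    tfae_finish

end Pool.Agent.Results.MP_fc2ced_ag.GraphHypersurfaces
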