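import Pool.Agent.H89.L.Z125_UN_MotUni
import Pool.Agent.H57.ZP.Three

/-!
# MP_fc2ced_ag: Schur-finiteness of motives and completions of partial matrices

Let `k` be a perfect field. A partial matrix `Z` over `k` has prescribed elements of `k` at some places
and no elements at the other places. For a partial square matrix `Z` let `glC Z` be the smooth affine
scheme of the invertible completions of `Z`; it is the open subscheme `det ≠ 0` of an affine space, and
every coordinate of the affine space occurs at exactly one place of the matrix. For a partial matrix `Z`
of size `m × n` let `rkC Z` be the affine scheme of the completions of `Z` of rank at most three.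

**Theorem.** The following are equivalent.
1. The motives of all smooth separated schemes of finite type over `k` are Schur-finite (Q1 for `k`).
2. The motives of the schemes `glC Z` of the invertible completions of those partial square matrices `Z`
   over `k` are Schur-finite which have, in each row and in each column, at most three places without a
   prescribed zero (`Three Z`).
3. The motives with compact support of the schemes `rkC Z` of the completions of rank at most three of
   the partial matrices `Z` over `k` are Schur-finite.
If `k` is `ℚ` or a finite prime field (`Frac k`: all elements of `k` are quotients of integers), it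
suffices to take in 2. (or in 3.) the partial matrices all of whose prescribed elements are zero: these
are the schemes `glS k Z` and `rkS k Z` of the invertible matrices (matrices of rank at most three) with
zeros at the places of the finite set `Z`; in 2., with at most three other places in each row and in each
column (`ThreeZ Z`).

`D` are the motives `M X` and the motives with compact support `Mc X` of the schemes over `k`, in the
category `C` of geometric motives with rational coefficients; `IsMotives D` lists the standard properties
which are used.

Proof. (2 ⟹ 1) Bordering an invertible matrix by one row and one column of variables, with a function `g`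
or with a variable in the corner, one gets from the three invertibility loci the zero set of `g`
(`ZP/Step.lean`). Applied to all columns, this gives all incidence systems `a_i · b_j = 0`, `(i, j) ∈ Q`,
for rows `a_i` and columns `b_j` of length three with prescribed elements (`ZP/Peel.lean`,
`ZP/Base.lean`, `ZP/KBase.lean`). A column of the matrix can be distributed over two columns with a new
row which has two elements different from zero; this gives at most three elements in each row and each
column (`ZP/Split.lean`, `ZP/Deg.lean`, `ZP/Three.lean`). (3 ⟹ 1) These systems are also given by the completions of rank at most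
three. The systems of bilinear equations are computed by configurations of such rows and columns, as in
the theorem of Mnëv (`ZP/KConf.lean`; without the prescribed elements different from zero, for equations
with coefficients zero and one, `ZP/Conf.lean`), and these systems are universal by the starting library.
-/

set_option autoImplicit false

open CategoryTheory MonoidalCategory AlgebraicGeometry Pool.Agent.TH137.DG Pool.Agent.Y116.UV
  Pool.Agent.Z125.UN Pool.Agent.Q193.LT Pool.Agent.H57.ZP

namespace Pool.Agent.Results.MP_fc2ced_ag.MatrixCompletions

universe v u

variable {k : Type} [Field k] {C : Type u} [Category.{v} C] [MonoidalCategory C]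
  [SymmetricCategory C] [Preadditive C] [Linear ℚ C] [Limits.HasZeroObject C] [HasShift C ℤ]
  [∀ n : ℤ, (shiftFunctor C n).Additive] [Pretriangulated C]

/-- **Schur-finiteness of motives and completions of partial matrices.** Over every perfect field `k`, Q1
for `k`, Schur-finiteness of the motives of the schemes of the invertible completions of the partial
matrices with at most three places without a prescribed zero in each row and in each column, and
Schur-finiteness of the motives with compact support of the schemes of the completions of rank at most
three of partial matrices are equivalent. If `k` is the field of rational numbers or a finite prime field,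
then partial matrices with the only prescribed element zero suffice. -/
theorem result [PerfectField k] (D : Motives k C) (hD : IsMotives D) :
    [∀ X : Sch k, FT True X → Smooth X.hom → IsSchurFinite (D.M X),
      ∀ (n : ℕ) (Z : Fin n → Fin n → Option k), Three Z → IsSchurFinite (D.M (glC Z)),
      ∀ (m n : ℕ) (Z : Fin m → Fin n → Option k), IsSchurFinite (D.Mc (rkC Z))].TFAE ∧
    (Frac k →
      [∀ X : Sch k, FT True X → Smooth X.hom → IsSchurFinite (D.M X),
        ∀ (n : ℕ) (Z : Finset (Fin n × Fin n)), ThreeZ Z → IsSchurFinite (D.M (glS k Z)),
        ∀ (m n : ℕ) (Z : Finset (Fin m × Fin n)), IsSchurFinite (D.Mc (rkS k Z))].TFAE) := by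
  have hB := bnd_sf hD
  have hsm : ∀ {A : Type} [CommRing A] [Algebra k A], Algebra.Smooth k A →
      Smooth (aff k A).hom := by
    intro A _ _ hA
    change Smooth (Spec.map (CommRingCat.ofHom (algebraMap k A)))
    rw [HasRingHomProperty.Spec_iff (P := @Smooth)]
    exact RingHom.smooth_algebraMap.mpr hA
  have hft : ∀ (n : ℕ) (Z : Fin n → Fin n → Option k), FT True (glC Z) := by
    intro n Z
    have h1 : Algebra.FiniteType k (Localization.Away (fillMat Z).det) :=
      Algebra.FiniteType.trans (S := MvPolynomial {x : Fin n × Fin n // Z x.1 x.2 = none} k)
        inferInstance inferInstance
    exact ft_aff True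
  have hft' : ∀ (n : ℕ) (Z : Finset (Fin n × Fin n)), FT True (glS k Z) := by
    intro n Z
    have h1 : Algebra.FiniteType k (Localization.Away (genMat k Z).det) :=
      Algebra.FiniteType.trans (S := MvPolynomial {x : Fin n × Fin n // x ∉ Z} k) inferInstance
        inferInstance
    exact ft_aff True
  have hall : (∀ X : Sch k, FT True X → IsSchurFinite (D.Mc X)) →
      ∀ X : Sch k, FT True X → Smooth X.hom → IsSchurFinite (D.M X) :=
    fun h X hX hs => (hD.duality X hX hs).mpr (h X hX)
  have key : (∀ (n : ℕ) (Z : Fin n → Fin n → Option k), Three Z → IsSchurFinite (D.M (glC Z))) →
      ∀ X : Sch k, FT True X → IsSchurFinite (D.Mc X) := fun h X hX =>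
    universal_glC3 hB (fun n Z hZ => (hD.duality _ (hft n Z) (hsm (smooth_glC Z))).mp (h n Z hZ))
      X hX
  have key1 : (∀ X : Sch k, FT True X → Smooth X.hom → IsSchurFinite (D.M X)) →
      ∀ X : Sch k, FT True X → IsSchurFinite (D.Mc X) := fun h =>
    key fun n Z _ => h _ (hft n Z) (hsm (smooth_glC Z))
  refine ⟨?_, fun hk => ?_⟩
  · tfae_have 1 → 2 := fun h n Z _ => h _ (hft n Z) (hsm (smooth_glC Z))
    tfae_have 2 → 1 := fun h => hall (key h)
    tfae_have 1 → 3 := fun h m n Z => key1 h _ (ft_aff True)
    tfae_have 3 → 1 := fun h => hall fun X hX => universal_rkC hB h X hX
    tfae_finish
  · tfae_have 1 → 2 := fun h n Z _ => h _ (hft' n Z) (hsm (smooth_gl k Z))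
    tfae_have 2 → 1 := fun h => hall fun X hX => universal_gl3 hk hB (fun n Z hZ =>
      (hD.duality _ (hft' n Z) (hsm (smooth_gl k Z))).mp (h n Z hZ)) X hX
    tfae_have 1 → 3 := fun h m n Z => key1 h _ (ft_aff True)
    tfae_have 3 → 1 := fun h => hall fun X hX => universal_rk hk hB h X hX
    tfae_finish

end Pool.Agent.Results.MP_fc2ced_ag.MatrixCompletions
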