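import Pool.Agent.H89.L.Z125_UN_MotUni
import Pool.Agent.H92.MS.Main

/-!
# MP_fc2ced_ag: Schur-finiteness of motives and matroid strata of Grassmannians

Let `k` be the field `ℚ` or `𝔽_p`. `D` are the motives `M X` and the motives with compact support `Mc X`
of the schemes over `k`, in the category `C` of geometric motives with rational coefficients; `IsMotives D`
lists the standard properties which are used.

Let `M` be the generic matrix with three rows and `m` columns. The maximal minors of `(I | M)` are, up to
sign, the minors of `M` of all sizes; they are the Plücker coordinates on the affine chart of the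
Grassmannian of subspaces of dimension `3` in the space of dimension `3 + m` where the first coordinate is
invertible. For a set `S` of minors let `openS k m S` be the open subscheme of the space `𝔸^{3m}` of
matrices where the minors in `S` are invertible (the complement of a determinantal arrangement, a smooth
affine variety), and `cellS k m S` the locally closed subscheme where the minors in `S` are invertible and
all the other minors vanish (the matroid strata of the Grassmannian, or thin Schubert cells).

**Theorem.** The following are equivalent.
1. The motives of all smooth separated schemes of finite type over `k` are Schur-finite (Q1 for `k`).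
2. The motives of the complements `openS k m S` are Schur-finite, for all `m` and `S`.
3. The motives with compact support of the matroid strata `cellS k m S` are Schur-finite, for all `m` and
   `S`.
Moreover, every separated scheme `X` of finite type over `k` is made from finitely many matroid strata (and
also from finitely many complements `openS k m S`) by closed-open decompositions (two out of three) and
division by `𝔾_m`; the list depends only on `X`. If the motives with compact support of the schemes in the
list are Schur-finite, then so is the motive with compact support of `X`, and the motive of `X` if `X` is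
smooth. (In the theorems of Mnëv and of Belkale and Brosnan one divides by larger groups; here only tori
are divided out.)
-/

set_option autoImplicit false

open CategoryTheory MonoidalCategory AlgebraicGeometry Pool.Agent.TH137.DG Pool.Agent.Y116.UV
  Pool.Agent.Z125.UN Pool.Agent.Q193.LT Pool.Agent.W5h93.EX Pool.Agent.W5h77.MR Pool.Agent.H92.MS

namespace Pool.Agent.Results.MP_fc2ced_ag.MatroidStrata

universe v u

variable {k : Type} [Field k] {C : Type u} [Category.{v} C] [MonoidalCategory C]
  [SymmetricCategory C] [Preadditive C] [Linear ℚ C] [Limits.HasZeroObject C] [HasShift C ℤ]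
  [∀ n : ℤ, (shiftFunctor C n).Additive] [Pretriangulated C]

lemma smooth_openS (m : ℕ) (S : Finset (Trp m)) : Smooth (openS k m S).hom := by
  have h0 : Algebra.Smooth k (MvPolynomial (Fin 3 × Fin m) k) := {}
  have h2 : Algebra.Smooth (MvPolynomial (Fin 3 × Fin m) k)
      (Localization.Away (∏ t ∈ S, gmin k (Fin m) t)) :=
    Algebra.Smooth.of_isLocalization_Away (∏ t ∈ S, gmin k (Fin m) t)
  have h1 : Algebra.Smooth k (Localization.Away (∏ t ∈ S, gmin k (Fin m) t)) :=
    .comp k (MvPolynomial (Fin 3 × Fin m) k) _
  change Smooth (Spec.map (CommRingCat.ofHom (algebraMap k _)))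
  rw [HasRingHomProperty.Spec_iff (P := @Smooth)]
  exact RingHom.smooth_algebraMap.mpr h1

lemma ft_openS (m : ℕ) (S : Finset (Trp m)) : FT True (openS k m S) := by
  have h1 : Algebra.FiniteType k (Localization.Away (∏ t ∈ S, gmin k (Fin m) t)) :=
    Algebra.FiniteType.trans (S := MvPolynomial (Fin 3 × Fin m) k) inferInstance inferInstance
  exact ft_aff True

/-- **Schur-finiteness of motives and matroid strata of Grassmannians.** See the explanations above. -/
theorem result [PerfectField k] (hk : IsPrimeField k) (D : Motives k C) (hD : IsMotives D) :
    [∀ X : Sch k, FT True X → Smooth X.hom → IsSchurFinite (D.M X),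
      ∀ (m : ℕ) (S : Finset (Trp m)), IsSchurFinite (D.M (openS k m S)),
      ∀ (m : ℕ) (S : Finset (Trp m)), IsSchurFinite (D.Mc (cellS k m S))].TFAE ∧
    MadeFromStrata k ∧
    ∀ (L : Set (Sch k)) (X : Sch k), FT True X → Made L X → (∀ Y ∈ L, IsSchurFinite (D.Mc Y)) →
      IsSchurFinite (D.Mc X) ∧ (Smooth X.hom → IsSchurFinite (D.M X)) := by
  have hC := cloC_of_bnd (bnd_sf hD)
  have h2 := all_iff (short_prime hk) hC.toClo hC.closed
  have h3 : (∀ X : Sch k, FT True X → Smooth X.hom → IsSchurFinite (D.M X)) →
      ∀ (m : ℕ) (S : Finset (Trp m)), IsSchurFinite (D.M (openS k m S)) :=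
    fun h m S => h _ (ft_openS m S) (smooth_openS m S)
  have h4 : (∀ (m : ℕ) (S : Finset (Trp m)), IsSchurFinite (D.M (openS k m S))) →
      ∀ X : Sch k, FT True X → IsSchurFinite (D.Mc X) := fun h =>
    (h2.out 1 0).mp fun m S => (hD.duality _ (ft_openS m S) (smooth_openS m S)).mp (h m S)
  have h5 : (∀ X : Sch k, FT True X → IsSchurFinite (D.Mc X)) →
      ∀ X : Sch k, FT True X → Smooth X.hom → IsSchurFinite (D.M X) :=
    fun h X hX hs => (hD.duality X hX hs).mpr (h X hX)
  refine ⟨?_, madeFromStrata hk, fun L X hX hL h => ?_⟩
  · tfae_have 1 → 2 := h3
    tfae_have 2 → 1 := fun h => h5 (h4 h)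
    tfae_have 1 → 3 := fun h => (h2.out 0 2).mp (h4 (h3 h))
    tfae_have 3 → 1 := fun h => h5 ((h2.out 2 0).mp h)
    tfae_finish
  · have h6 : IsSchurFinite (D.Mc X) := of_made hC h X hL
    exact ⟨h6, fun hs => (hD.duality X hX hs).mpr h6⟩

end Pool.Agent.Results.MP_fc2ced_ag.MatroidStrata
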